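import Mathlib

/-!
# The map `x ↦ ((1 - x²) / (1 + x²))²` and closeness to given points

All the points have ramification index at most `2` for this map of degree `4`.
-/

set_option autoImplicit false

namespace Pool.Agent.U221.AW

section field
variable {L : Type} [Field L]

/-- the map -/
def phi (x : L) : L := ((1 - x ^ 2) / (1 + x ^ 2)) ^ 2

/-- the value of a linear form, normalised -/
noncomputable def ell (f : AbsoluteValue L ℝ) (u : L × L) (x : L) : ℝ := f (u.1 * x + u.2) / max 1 (f x)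

theorem ell_nonneg (f : AbsoluteValue L ℝ) (u : L × L) (x : L) : 0 ≤ ell f u x :=
  div_nonneg (f.nonneg _) (le_max_of_le_left zero_le_one)

/-- the four linear forms of the preimages -/
def quad (p q : L) : Fin 4 → L × L := ![(-q, p), (q, p), (-p, q), (p, q)]

/-- all iterated preimages are rational, up to the level `j` -/
def Sp : ℕ → L × L → Prop
  | 0, _ => True
  | j + 1, u => ∃ p q : L, 4 * u.1 = (p ^ 2 + q ^ 2) ^ 2 ∧ -4 * u.2 = (q ^ 2 - p ^ 2) ^ 2 ∧
      ∀ i, Sp j (quad p q i)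

theorem two_forms (f : AbsoluteValue L ℝ) {u w : L × L} (h : u.1 * w.2 - u.2 * w.1 ≠ 0) :
    ∃ c : ℝ, 0 < c ∧ ∀ x : L, c ≤ ell f u x ∨ c ≤ ell f w x := by
  have hD : 0 < f (u.1 * w.2 - u.2 * w.1) := f.pos h
  obtain ⟨s, hs⟩ : ∃ s, s = f u.1 + f u.2 + f w.1 + f w.2 := ⟨_, rfl⟩
  have n1 := f.nonneg u.1
  have n2 := f.nonneg u.2
  have n3 := f.nonneg w.1
  have n4 := f.nonneg w.2
  have hs0 : 0 ≤ s := by rw [hs]; positivity
  refine ⟨f (u.1 * w.2 - u.2 * w.1) / (s + 1), by positivity, fun x => ?_⟩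
  obtain ⟨M, hM⟩ : ∃ M, M = max (f (u.1 * x + u.2)) (f (w.1 * x + w.2)) := ⟨_, rfl⟩
  have m1 : f (u.1 * x + u.2) ≤ M := by rw [hM]; exact le_max_left _ _
  have m2 : f (w.1 * x + w.2) ≤ M := by rw [hM]; exact le_max_right _ _
  have hM0 : 0 ≤ M := (f.nonneg _).trans m1
  have key : f (u.1 * w.2 - u.2 * w.1) * max 1 (f x) ≤ s * M := by
    rcases le_total 1 (f x) with hx | hx
    · rw [max_eq_right hx, ← map_mul]
      have e : (u.1 * w.2 - u.2 * w.1) * x = w.2 * (u.1 * x + u.2) + (-(u.2 * (w.1 * x + w.2))) := by ring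
      rw [e]
      refine (f.add_le _ _).trans ?_
      rw [f.map_neg, map_mul, map_mul]
      have a1 := mul_le_mul_of_nonneg_left m1 n4
      have a2 := mul_le_mul_of_nonneg_left m2 n2
      rw [hs]
      nlinarith [mul_nonneg n1 hM0, mul_nonneg n3 hM0]
    · rw [max_eq_left hx, mul_one]
      have e : u.1 * w.2 - u.2 * w.1 = u.1 * (w.1 * x + w.2) + (-(w.1 * (u.1 * x + u.2))) := by ring
      rw [e]
      refine (f.add_le _ _).trans ?_
      rw [f.map_neg, map_mul, map_mul]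
      have a1 := mul_le_mul_of_nonneg_left m1 n3
      have a2 := mul_le_mul_of_nonneg_left m2 n1
      rw [hs]
      nlinarith [mul_nonneg n2 hM0, mul_nonneg n4 hM0]
  have hm : 0 < max 1 (f x) := lt_max_of_lt_left one_pos
  unfold ell
  by_contra hcon
  push Not at hcon
  obtain ⟨c1, c2⟩ := hcon
  rw [div_lt_div_iff₀ hm (by linarith)] at c1 c2
  have h3 : M * (s + 1) < f (u.1 * w.2 - u.2 * w.1) * max 1 (f x) := by
    rcases max_choice (f (u.1 * x + u.2)) (f (w.1 * x + w.2)) with h | h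
    · rw [hM, h]; exact c1
    · rw [hM, h]; exact c2
  nlinarith

/-- four forms of two classes -/
theorem four_forms (f : AbsoluteValue L ℝ) {u1 u2 w1 w2 : L × L} (h11 : u1.1 * w1.2 - u1.2 * w1.1 ≠ 0)
    (h12 : u1.1 * w2.2 - u1.2 * w2.1 ≠ 0) (h21 : u2.1 * w1.2 - u2.2 * w1.1 ≠ 0)
    (h22 : u2.1 * w2.2 - u2.2 * w2.1 ≠ 0) :
    ∃ c : ℝ, 0 < c ∧ ∀ x : L, (c * (ell f u1 x * ell f u2 x) ≤
      ell f u1 x * ell f u2 x * (ell f w1 x * ell f w2 x)) ∨ (c * (ell f w1 x * ell f w2 x) ≤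
      ell f u1 x * ell f u2 x * (ell f w1 x * ell f w2 x)) := by
  obtain ⟨c1, p1, k1⟩ := two_forms f h11
  obtain ⟨c2, p2, k2⟩ := two_forms f h12
  obtain ⟨c3, p3, k3⟩ := two_forms f h21
  obtain ⟨c4, p4, k4⟩ := two_forms f h22
  obtain ⟨c, hc, hc1, hc2, hc3, hc4⟩ : ∃ c : ℝ, 0 < c ∧ c ≤ c1 ∧ c ≤ c2 ∧ c ≤ c3 ∧ c ≤ c4 :=
    ⟨min (min c1 c2) (min c3 c4), by positivity, (min_le_left _ _).trans (min_le_left _ _),
      (min_le_left _ _).trans (min_le_right _ _), (min_le_right _ _).trans (min_le_left _ _),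
      (min_le_right _ _).trans (min_le_right _ _)⟩
  refine ⟨c * c, by positivity, fun x => ?_⟩
  have a1 := ell_nonneg f u1 x
  have a2 := ell_nonneg f u2 x
  have a3 := ell_nonneg f w1 x
  have a4 := ell_nonneg f w2 x
  have hu : ∀ y z : ℝ, 0 ≤ y → c ≤ z → c ≤ y → c * c ≤ y * z := fun y z hy hz hyc =>
    mul_le_mul hyc hz hc.le hy
  by_cases h : c ≤ ell f u1 x ∧ c ≤ ell f u2 x
  · right
    exact mul_le_mul_of_nonneg_right (hu _ _ a1 h.2 h.1) (mul_nonneg a3 a4)
  · left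
    have hw : c ≤ ell f w1 x ∧ c ≤ ell f w2 x := by
      rw [not_and_or] at h
      rcases h with h | h
      · exact ⟨hc1.trans ((k1 x).resolve_left fun h' => h (hc1.trans h')),
          hc2.trans ((k2 x).resolve_left fun h' => h (hc2.trans h'))⟩
      · exact ⟨hc3.trans ((k3 x).resolve_left fun h' => h (hc3.trans h')),
          hc4.trans ((k4 x).resolve_left fun h' => h (hc4.trans h'))⟩
    rw [mul_comm]
    exact mul_le_mul_of_nonneg_left (hu _ _ a3 hw.2 hw.1) (mul_nonneg a1 a2)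

theorem sq_min {a b : ℝ} (ha : 0 ≤ a) (hb : 0 ≤ b) : a ^ 2 ≤ a * b ∨ b ^ 2 ≤ a * b := by
  rcases le_total a b with h | h
  · left; nlinarith
  · right; nlinarith

/-- **the step** -/
theorem step [NeZero (2 : L)] (f : AbsoluteValue L ℝ) {u : L × L} (hu : u ≠ 0) {p q : L}
    (h1 : 4 * u.1 = (p ^ 2 + q ^ 2) ^ 2) (h2 : -4 * u.2 = (q ^ 2 - p ^ 2) ^ 2) :
    (∀ i, quad p q i ≠ 0) ∧ ∃ c : ℝ, 0 < c ∧ ∀ x : L, 1 + x ^ 2 ≠ 0 →
      ∃ i, c * ell f (quad p q i) x ^ 2 ≤ ell f u (phi x) := by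
  have t2 : (2 : L) ≠ 0 := NeZero.ne 2
  have t4 : (4 : L) ≠ 0 := by
    have : (4 : L) = 2 * 2 := by norm_num
    rw [this]; exact mul_ne_zero t2 t2
  have hpq : p ≠ 0 ∨ q ≠ 0 := by
    by_contra hcon
    push Not at hcon
    obtain ⟨rfl, rfl⟩ := hcon
    apply hu
    have e1 : u.1 = 0 := by
      have : 4 * u.1 = 0 := by rw [h1]; ring
      exact (mul_eq_zero.1 this).resolve_left t4
    have e2 : u.2 = 0 := by
      have : -4 * u.2 = 0 := by rw [h2]; ring
      exact (mul_eq_zero.1 this).resolve_left (neg_ne_zero.2 t4)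
    exact Prod.ext e1 e2
  have hne : ∀ i, quad p q i ≠ 0 := by
    intro i h
    fin_cases i <;> simp [quad] at h <;> rcases hpq with h' | h' <;> simp_all
  refine ⟨hne, ?_⟩
  -- the product
  have hprod : ∀ x : L, 1 + x ^ 2 ≠ 0 → ell f (quad p q 0) x * ell f (quad p q 1) x *
      (ell f (quad p q 2) x * ell f (quad p q 3) x) ≤ 4 * ell f u (phi x) := by
    intro x hx
    obtain ⟨m, hm⟩ : ∃ m, m = max 1 (f x) := ⟨_, rfl⟩
    have hm1 : 1 ≤ m := by rw [hm]; exact le_max_left _ _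
    have hmx : f x ≤ m := by rw [hm]; exact le_max_right _ _
    have hm0 : 0 < m := by linarith
    have hxx : f x ^ 2 ≤ m ^ 2 := pow_le_pow_left₀ (f.nonneg _) hmx 2
    have hm2 : 1 ≤ m ^ 2 := one_le_pow₀ hm1
    have hB : f (1 + x ^ 2) ≤ 2 * m ^ 2 := by
      refine (f.add_le _ _).trans ?_
      rw [f.map_one, map_pow]
      linarith
    have hA : f (1 - x ^ 2) ≤ 2 * m ^ 2 := by
      rw [sub_eq_add_neg]
      refine (f.add_le _ _).trans ?_
      rw [f.map_one, f.map_neg, map_pow]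
      linarith
    have hBpos : 0 < f (1 + x ^ 2) := f.pos hx
    have hBne : (1 + x ^ 2 : L) ≠ 0 := hx
    have e1 : (u.1 * phi x + u.2) * (1 + x ^ 2) ^ 2 =
        (-q * x + p) * (q * x + p) * ((-p * x + q) * (p * x + q)) := by
      have h3 : 4 * ((u.1 * phi x + u.2) * (1 + x ^ 2) ^ 2) =
          4 * ((-q * x + p) * (q * x + p) * ((-p * x + q) * (p * x + q))) := by
        have e2 : phi x * (1 + x ^ 2) ^ 2 = (1 - x ^ 2) ^ 2 := by
          unfold phi
          rw [div_pow, div_mul_cancel₀ _ (pow_ne_zero 2 hBne)]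
        calc 4 * ((u.1 * phi x + u.2) * (1 + x ^ 2) ^ 2) =
            (4 * u.1) * (phi x * (1 + x ^ 2) ^ 2) - (-4 * u.2) * (1 + x ^ 2) ^ 2 := by ring
          _ = _ := by rw [h1, h2, e2]; ring
      exact mul_left_cancel₀ t4 h3
    have e3 := congrArg f e1
    rw [map_mul, map_pow, map_mul, map_mul, map_mul] at e3
    have e4 : max 1 (f (phi x)) * f (1 + x ^ 2) ^ 2 ≤ 4 * m ^ 4 := by
      have hb2 : f (1 + x ^ 2) ^ 2 ≤ 4 * m ^ 4 := by
        calc f (1 + x ^ 2) ^ 2 ≤ (2 * m ^ 2) ^ 2 := pow_le_pow_left₀ hBpos.le hB 2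
          _ = 4 * m ^ 4 := by ring
      rcases le_total 1 (f (phi x)) with h | h
      · rw [max_eq_right h]
        unfold phi
        rw [map_pow, map_div₀, div_pow, div_mul_cancel₀ _ (pow_pos hBpos 2).ne']
        calc f (1 - x ^ 2) ^ 2 ≤ (2 * m ^ 2) ^ 2 := pow_le_pow_left₀ (f.nonneg _) hA 2
          _ = 4 * m ^ 4 := by ring
      · rw [max_eq_left h, one_mul]
        exact hb2
    have hmax : 0 < max 1 (f (phi x)) := lt_max_of_lt_left one_pos
    have e5 : ell f (quad p q 0) x * ell f (quad p q 1) x * (ell f (quad p q 2) x * ell f (quad p q 3) x) =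
        f (u.1 * phi x + u.2) * f (1 + x ^ 2) ^ 2 / m ^ 4 := by
      rw [e3]
      simp only [ell, quad, Matrix.cons_val_zero, Matrix.cons_val_one, Matrix.cons_val, ← hm]
      field_simp
    rw [e5, ell, ← mul_div_assoc, div_le_div_iff₀ (by positivity) hmax]
    have n1 := f.nonneg (u.1 * phi x + u.2)
    calc f (u.1 * phi x + u.2) * f (1 + x ^ 2) ^ 2 * max 1 (f (phi x)) =
        f (u.1 * phi x + u.2) * (max 1 (f (phi x)) * f (1 + x ^ 2) ^ 2) := by ring
      _ ≤ f (u.1 * phi x + u.2) * (4 * m ^ 4) := mul_le_mul_of_nonneg_left e4 n1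
      _ = 4 * f (u.1 * phi x + u.2) * m ^ 4 := by ring
  have fin : ∀ i1 i2 i3 i4 : Fin 4, (∀ x : L, 1 + x ^ 2 ≠ 0 → ell f (quad p q i1) x * ell f (quad p q i2) x *
      (ell f (quad p q i3) x * ell f (quad p q i4) x) ≤ 4 * ell f u (phi x)) →
      ((quad p q i1).1 * (quad p q i3).2 - (quad p q i1).2 * (quad p q i3).1 ≠ 0) →
      ((quad p q i1).1 * (quad p q i4).2 - (quad p q i1).2 * (quad p q i4).1 ≠ 0) →
      ((quad p q i2).1 * (quad p q i3).2 - (quad p q i2).2 * (quad p q i3).1 ≠ 0) →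
      ((quad p q i2).1 * (quad p q i4).2 - (quad p q i2).2 * (quad p q i4).1 ≠ 0) →
      ∃ c : ℝ, 0 < c ∧ ∀ x : L, 1 + x ^ 2 ≠ 0 → ∃ i, c * ell f (quad p q i) x ^ 2 ≤ ell f u (phi x) := by
    intro i1 i2 i3 i4 hp g1 g2 g3 g4
    obtain ⟨c, hc, hcx⟩ := four_forms f g1 g2 g3 g4
    refine ⟨c / 4, by positivity, fun x hx => ?_⟩
    have h3 := hp x hx
    rcases hcx x with h4 | h4
    · rcases sq_min (ell_nonneg f (quad p q i1) x) (ell_nonneg f (quad p q i2) x) with h5 | h5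
      · exact ⟨i1, by nlinarith [mul_le_mul_of_nonneg_left h5 hc.le]⟩
      · exact ⟨i2, by nlinarith [mul_le_mul_of_nonneg_left h5 hc.le]⟩
    · rcases sq_min (ell_nonneg f (quad p q i3) x) (ell_nonneg f (quad p q i4) x) with h5 | h5
      · exact ⟨i3, by nlinarith [mul_le_mul_of_nonneg_left h5 hc.le]⟩
      · exact ⟨i4, by nlinarith [mul_le_mul_of_nonneg_left h5 hc.le]⟩
  -- the three cases
  by_cases hp0 : p = 0 ∨ q = 0
  · -- the partition (0, 1), (2, 3)
    have hab : p ^ 2 + q ^ 2 ≠ 0 ∧ q ^ 2 - p ^ 2 ≠ 0 := by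
      rcases hp0 with h | h
      · have hq := hpq.resolve_left (not_not.2 h)
        rw [h]
        constructor <;> simpa using hq
      · have hp := hpq.resolve_right (not_not.2 h)
        rw [h]
        constructor
        · simpa using hp
        · simpa using hp
    refine fin 0 1 2 3 hprod ?_ ?_ ?_ ?_
    · have e : (quad p q 0).1 * (quad p q 2).2 - (quad p q 0).2 * (quad p q 2).1 = -(q ^ 2 - p ^ 2) := by
        simp [quad]; ring
      rw [e]; exact neg_ne_zero.2 hab.2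
    · have e : (quad p q 0).1 * (quad p q 3).2 - (quad p q 0).2 * (quad p q 3).1 = -(p ^ 2 + q ^ 2) := by
        simp [quad]; ring
      rw [e]; exact neg_ne_zero.2 hab.1
    · have e : (quad p q 1).1 * (quad p q 2).2 - (quad p q 1).2 * (quad p q 2).1 = p ^ 2 + q ^ 2 := by
        simp [quad]; ring
      rw [e]; exact hab.1
    · have e : (quad p q 1).1 * (quad p q 3).2 - (quad p q 1).2 * (quad p q 3).1 = q ^ 2 - p ^ 2 := by
        simp [quad]; ring
      rw [e]; exact hab.2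
  push Not at hp0
  have hpq2 : 2 * (p * q) ≠ 0 := mul_ne_zero t2 (mul_ne_zero hp0.1 hp0.2)
  by_cases hb : q ^ 2 - p ^ 2 = 0
  · have ha : p ^ 2 + q ^ 2 ≠ 0 := by
      intro h
      have : 2 * p ^ 2 = 0 := by linear_combination h - hb
      exact mul_ne_zero t2 (pow_ne_zero 2 hp0.1) this
    refine fin 0 2 1 3 (fun x hx => by
      have := hprod x hx
      linarith) ?_ ?_ ?_ ?_
    · have e : (quad p q 0).1 * (quad p q 1).2 - (quad p q 0).2 * (quad p q 1).1 = -(2 * (p * q)) := by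
        simp [quad]; ring
      rw [e]; exact neg_ne_zero.2 hpq2
    · have e : (quad p q 0).1 * (quad p q 3).2 - (quad p q 0).2 * (quad p q 3).1 = -(p ^ 2 + q ^ 2) := by
        simp [quad]; ring
      rw [e]; exact neg_ne_zero.2 ha
    · have e : (quad p q 2).1 * (quad p q 1).2 - (quad p q 2).2 * (quad p q 1).1 = -(p ^ 2 + q ^ 2) := by
        simp [quad]; ring
      rw [e]; exact neg_ne_zero.2 ha
    · have e : (quad p q 2).1 * (quad p q 3).2 - (quad p q 2).2 * (quad p q 3).1 = -(2 * (p * q)) := by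
        simp [quad]; ring
      rw [e]; exact neg_ne_zero.2 hpq2
  · refine fin 0 3 1 2 (fun x hx => by
      have := hprod x hx
      linarith) ?_ ?_ ?_ ?_
    · have e : (quad p q 0).1 * (quad p q 1).2 - (quad p q 0).2 * (quad p q 1).1 = -(2 * (p * q)) := by
        simp [quad]; ring
      rw [e]; exact neg_ne_zero.2 hpq2
    · have e : (quad p q 0).1 * (quad p q 2).2 - (quad p q 0).2 * (quad p q 2).1 = -(q ^ 2 - p ^ 2) := by
        simp [quad]; ring
      rw [e]; exact neg_ne_zero.2 hb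
    · have e : (quad p q 3).1 * (quad p q 1).2 - (quad p q 3).2 * (quad p q 1).1 = -(q ^ 2 - p ^ 2) := by
        simp [quad]; ring
      rw [e]; exact neg_ne_zero.2 hb
    · have e : (quad p q 3).1 * (quad p q 2).2 - (quad p q 3).2 * (quad p q 2).1 = 2 * (p * q) := by
        simp [quad]; ring
      rw [e]; exact hpq2

/-- **the iterated step** -/
theorem chain [NeZero (2 : L)] (f : AbsoluteValue L ℝ) : ∀ (j : ℕ) (u : L × L), u ≠ 0 → Sp j u →
    ∃ (T : Finset (L × L)) (c : ℝ), (∀ t ∈ T, t ≠ 0) ∧ 0 < c ∧ ∀ x : L,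
      (∀ i < j, 1 + (phi^[i] x) ^ 2 ≠ 0) → ∃ t ∈ T, c * ell f t x ^ 2 ^ j ≤ ell f u (phi^[j] x)
  | 0, u, hu, _ => ⟨{u}, 1, by simpa using hu, one_pos, fun x _ => ⟨u, by simp, by simp⟩⟩
  | j + 1, u, hu, ⟨p, q, h1, h2, h3⟩ => by
    classical
    obtain ⟨hne, c0, hc0, hstep⟩ := step f hu h1 h2
    choose T c hT hc hch using fun i => chain f j (quad p q i) (hne i) (h3 i)
    obtain ⟨c', hc'0, hc'⟩ : ∃ c' : ℝ, 0 < c' ∧ ∀ i, c' ≤ c i :=
      ⟨min (min (c 0) (c 1)) (min (c 2) (c 3)), by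
        have := hc 0; have := hc 1; have := hc 2; have := hc 3; positivity, fun i => by
        fin_cases i
        · exact (min_le_left _ _).trans (min_le_left _ _)
        · exact (min_le_left _ _).trans (min_le_right _ _)
        · exact (min_le_right _ _).trans (min_le_left _ _)
        · exact (min_le_right _ _).trans (min_le_right _ _)⟩
    refine ⟨Finset.univ.biUnion T, c0 * c' ^ 2, fun t ht => ?_, by positivity, fun x hx => ?_⟩
    · rw [Finset.mem_biUnion] at ht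
      obtain ⟨i, -, hi⟩ := ht
      exact hT i t hi
    · obtain ⟨i, hi⟩ := hstep (phi^[j] x) (hx j (by omega))
      obtain ⟨t, ht, ht2⟩ := hch i x fun i' hi' => hx i' (by omega)
      refine ⟨t, Finset.mem_biUnion.2 ⟨i, Finset.mem_univ _, ht⟩, ?_⟩
      rw [Function.iterate_succ_apply']
      refine le_trans ?_ hi
      have n1 := ell_nonneg f t x
      have h4 : c' * ell f t x ^ 2 ^ j ≤ ell f (quad p q i) (phi^[j] x) :=
        (mul_le_mul_of_nonneg_right (hc' i) (by positivity)).trans ht2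
      have h5 : (c' * ell f t x ^ 2 ^ j) ^ 2 ≤ ell f (quad p q i) (phi^[j] x) ^ 2 :=
        pow_le_pow_left₀ (by positivity) h4 2
      calc c0 * c' ^ 2 * ell f t x ^ 2 ^ (j + 1) = c0 * (c' * ell f t x ^ 2 ^ j) ^ 2 := by
            rw [mul_pow, ← pow_mul, pow_succ 2 j, mul_assoc]
        _ ≤ _ := mul_le_mul_of_nonneg_left h5 hc0.le

end field

end Pool.Agent.U221.AW
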