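import Pool.Agent.U221.AW.Loc

/-!
# A Galois field which contains given algebraic numbers
-/

set_option autoImplicit false

namespace Pool.Agent.U221.AW

open Polynomial

variable {K : Type} [Field K] [NumberField K]

/-- over an algebraically closed field all preimages are rational -/
theorem sp_closed {M : Type} [Field M] [IsAlgClosed M] [CharZero M] : ∀ (j : ℕ) (u : M × M), Sp j u
  | 0, _ => trivial
  | j + 1, u => by
    obtain ⟨a, ha⟩ := IsAlgClosed.exists_pow_nat_eq u.1 (n := 2) (by norm_num)
    obtain ⟨b, hb⟩ := IsAlgClosed.exists_pow_nat_eq (-u.2) (n := 2) (by norm_num)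
    obtain ⟨p, hp⟩ := IsAlgClosed.exists_pow_nat_eq (a - b) (n := 2) (by norm_num)
    obtain ⟨q, hq⟩ := IsAlgClosed.exists_pow_nat_eq (a + b) (n := 2) (by norm_num)
    refine ⟨p, q, ?_, ?_, fun i => sp_closed j _⟩
    · rw [hp, hq, ← ha]; ring
    · rw [hp, hq]
      linear_combination (-4 : M) * hb

/-- the numbers which are used -/
theorem sp_finite {M : Type} [Field M] : ∀ (j : ℕ) (u : M × M), Sp j u →
    ∃ E : Finset M, ∀ (L : Type) [Field L] (ι : L →+* M), (∀ e ∈ E, ∃ y, ι y = e) →
      ∀ w : L × L, (ι w.1, ι w.2) = u → Sp j w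
  | 0, _, _ => ⟨∅, fun _ _ _ _ _ _ => trivial⟩
  | j + 1, u, ⟨p, q, h1, h2, h3⟩ => by
    classical
    choose E hE using fun i => sp_finite j (quad p q i) (h3 i)
    refine ⟨{p, q} ∪ Finset.univ.biUnion E, fun L _ ι hι w hw => ?_⟩
    obtain ⟨p', hp'⟩ := hι p (by simp)
    obtain ⟨q', hq'⟩ := hι q (by simp)
    have hw1 : ι w.1 = u.1 := congrArg Prod.fst hw
    have hw2 : ι w.2 = u.2 := congrArg Prod.snd hw
    refine ⟨p', q', ?_, ?_, fun i => ?_⟩
    · apply ι.injective
      simp only [map_mul, map_pow, map_add, map_ofNat, hp', hq', hw1]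
      exact h1
    · apply ι.injective
      simp only [map_mul, map_pow, map_sub, map_neg, map_ofNat, hp', hq', hw2]
      exact h2
    · refine hE i L ι (fun e he => hι e ?_) (quad p' q' i) ?_
      · rw [Finset.mem_union, Finset.mem_biUnion]
        exact Or.inr ⟨i, Finset.mem_univ _, he⟩
      · fin_cases i <;> simp [quad, hp', hq']

/-- a number field containing finitely many given algebraic numbers -/
theorem exists_field (E : Finset (AlgebraicClosure K)) : ∃ (L : Type) (_ : Field L) (_ : NumberField L)
    (_ : Algebra K L) (_ : IsGalois ℚ L) (ι : L →+* AlgebraicClosure K),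
    (∃ z : L, z ^ 2 = -1) ∧ (∀ e ∈ E, ∃ y, ι y = e) ∧
    ∀ x : K, ι (algebraMap K L x) = algebraMap K (AlgebraicClosure K) x := by
  classical
  have : Algebra.IsAlgebraic ℚ (AlgebraicClosure K) := Algebra.IsAlgebraic.trans ℚ K (AlgebraicClosure K)
  obtain ⟨i0, hi0⟩ := IsAlgClosed.exists_pow_nat_eq (-1 : (AlgebraicClosure K)) (n := 2) (by norm_num)
  let b := Module.finBasis ℚ K
  let E' : Set (AlgebraicClosure K) := (E : Set (AlgebraicClosure K)) ∪ {i0} ∪ Set.range fun j => algebraMap K (AlgebraicClosure K) (b j)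
  have hE'fin : E'.Finite := ((E.finite_toSet).union (Set.finite_singleton _)).union (Set.finite_range _)
  let L0 : IntermediateField ℚ (AlgebraicClosure K) := IntermediateField.adjoin ℚ E'
  have : FiniteDimensional ℚ L0 := by
    have := hE'fin.to_subtype
    exact IntermediateField.finiteDimensional_adjoin fun x _ => Algebra.IsIntegral.isIntegral x
  let L := IntermediateField.normalClosure ℚ L0 (AlgebraicClosure K)
  have hle : L0 ≤ L := IntermediateField.le_normalClosure L0
  have : Normal ℚ (AlgebraicClosure K) := by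
    have : IsAlgClosure ℚ (AlgebraicClosure K) := ⟨inferInstance, inferInstance⟩
    exact IsAlgClosure.normal ℚ (AlgebraicClosure K)
  have : FiniteDimensional ℚ L := inferInstance
  have : Normal ℚ L := normalClosure.normal ℚ L0 (AlgebraicClosure K)
  have hK : ∀ x : K, algebraMap K (AlgebraicClosure K) x ∈ L := by
    intro x
    apply hle
    have hx := b.sum_repr x
    rw [← hx, map_sum]
    refine sum_mem fun j _ => ?_
    have e : algebraMap K (AlgebraicClosure K) (b.repr x j • b j) = (b.repr x j) • algebraMap K (AlgebraicClosure K) (b j) := by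
      rw [Algebra.smul_def, map_mul, Algebra.smul_def, ← IsScalarTower.algebraMap_apply]
    rw [e]
    refine L0.smul_mem (IntermediateField.subset_adjoin ℚ E' ?_)
    exact Or.inr ⟨j, rfl⟩
  let φ : K →+* L := (algebraMap K (AlgebraicClosure K)).codRestrict L.toSubfield hK
  let _ : Algebra K L := φ.toAlgebra
  have : CharZero L := inferInstance
  have : NumberField L := { to_charZero := inferInstance, to_finiteDimensional := inferInstance }
  have : IsGalois ℚ L := ⟨⟩
  refine ⟨L, inferInstance, inferInstance, inferInstance, inferInstance, L.val.toRingHom, ?_, ?_, fun x => rfl⟩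
  · refine ⟨⟨i0, hle (IntermediateField.subset_adjoin ℚ E' (Or.inl (Or.inr rfl)))⟩, ?_⟩
    apply Subtype.ext
    simpa using hi0
  · intro e he
    exact ⟨⟨e, hle (IntermediateField.subset_adjoin ℚ E' (Or.inl (Or.inl (Finset.mem_coe.2 he))))⟩, rfl⟩

end Pool.Agent.U221.AW
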