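import Pool.Agent.U221.AW.Rth

/-!
# The abc conjecture for points which are far from given algebraic numbers
-/

set_option autoImplicit false
set_option linter.unusedSectionVars false

namespace Pool.Agent.U221.AW

open Polynomial NumberField IsDedekindDomain Pool.Agent.U221.TK
open Pool.Agent.W223.AK (H3)
open Pool.Agent.W180.OP (Pl av)

variable {K : Type} [Field K] [NumberField K]

/-- the inequality for the points of `T`, not normalised -/
def AbcU (T : Set (Fin 3 → K)) : Prop :=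
  ∀ ε : ℝ, 0 < ε → ∃ C : ℝ, ∀ P ∈ T, P 0 + P 1 + P 2 = 0 → P 0 * P 1 * P 2 ≠ 0 → H3 P < (1 + ε) * R3' P + C

/-- images under maps which behave like Belyi maps of bounded degree suffice -/
theorem transfer (T : Set (Fin 3 → K)) (D : ℕ) (C : ℝ) (hcore : ∀ x : K, C ≤ H x →
      ∃ (P' : Fin 3 → K) (d : ℕ), P' ∈ T ∧ P' 0 + P' 1 + P' 2 = 0 ∧ P' 0 * P' 1 * P' 2 ≠ 0 ∧ 1 ≤ d ∧ d ≤ D ∧
        |H3 P' - d * H x| ≤ C ∧ R3' P' ≤ R x + (d - 1) * H x + C) (h : AbcU T) :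
    ∀ ε : ℝ, 0 < ε → ∃ C : ℝ, ∀ P : Fin 3 → K, P 0 + P 1 + P 2 = 0 → P 0 * P 1 * P 2 ≠ 0 →
      H3 P < (1 + ε) * R3' P + C := by
  intro ε hε
  obtain ⟨c, hc0, hc⟩ := height_close (K := K)
  -- the small parameter
  obtain ⟨η, hη⟩ : ∃ η : ℝ, η = ε / (1 + (1 + ε) * D) := ⟨_, rfl⟩
  have hD0 : (0 : ℝ) ≤ D := Nat.cast_nonneg D
  have hden : 0 < 1 + (1 + ε) * D := by positivity
  have hη0 : 0 < η := by rw [hη]; positivity
  have hηe : η * (1 + (1 + ε) * D) = ε := by rw [hη, div_mul_cancel₀ _ hden.ne']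
  have hηD : 0 < 1 - η * D := by
    have : (1 + ε) * (1 - η * D) = 1 + η := by linear_combination -hηe
    have h1 : 0 < (1 + ε) * (1 - η * D) := by rw [this]; linarith
    exact pos_of_mul_pos_right h1 (by linarith)
  obtain ⟨C', hC'⟩ := h η hη0
  refine ⟨|C| + c + 1 + (|C| + (1 + η) * |C| + |C'| + c) / (1 - η * D) , fun P hs hP => ?_⟩
  have h0 := left_ne_zero_of_mul (left_ne_zero_of_mul hP)
  have h1 := right_ne_zero_of_mul (left_ne_zero_of_mul hP)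
  have h2 := right_ne_zero_of_mul hP
  set x := P 0 / (-P 2) with hx
  have hPx := hc P hs h1 h2
  rw [← hx, abs_le] at hPx
  have hrad : R3' P = R x := rad_eq hs h2
  rw [hrad]
  have hR := R_nonneg x
  have aC := abs_nonneg C
  have lC := le_abs_self C
  have aC' := abs_nonneg C'
  have lC' := le_abs_self C'
  have hfr : 0 ≤ (|C| + (1 + η) * |C| + |C'| + c) / (1 - η * D) := div_nonneg (by positivity) hηD.le
  have hRε : 0 ≤ (1 + ε) * R x := by positivity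
  by_cases hxC : C ≤ H x
  · obtain ⟨P', d, hmem, hs', hne', hd1, hd2, hHd, hRd⟩ := hcore x hxC
    have hmain := hC' P' hmem hs' hne'
    rw [abs_le] at hHd
    have hd1' : (1 : ℝ) ≤ d := by exact_mod_cast hd1
    have hd2' : (d : ℝ) ≤ D := by exact_mod_cast hd2
    have hHx := Height.zero_le_logHeight₁ x
    -- the inequality
    have e1 : (d : ℝ) * H x < (1 + η) * (R x + (d - 1) * H x + |C|) + |C'| + c + |C| := by
      have e2 : (1 + η) * R3' P' ≤ (1 + η) * (R x + (d - 1) * H x + |C|) := by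
        refine mul_le_mul_of_nonneg_left ?_ (by linarith)
        linarith
      linarith [hHd.1, hHd.2]
    have e3 : (1 - η * D) * H x ≤ (1 - η * (d - 1)) * H x := by
      refine mul_le_mul_of_nonneg_right ?_ hHx
      nlinarith
    have e4 : (1 - η * D) * H x < (1 + η) * R x + (|C| + (1 + η) * |C| + |C'| + c) := by
      nlinarith
    have e5 : (1 + η) = (1 + ε) * (1 - η * D) := by linear_combination hηe
    have e6 : H x < (1 + ε) * R x + (|C| + (1 + η) * |C| + |C'| + c) / (1 - η * D) := by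
      rw [← sub_pos] at e4 ⊢
      have e7 : (1 - η * D) * ((1 + ε) * R x + (|C| + (1 + η) * |C| + |C'| + c) / (1 - η * D) - H x) =
          (1 + η) * R x + (|C| + (1 + η) * |C| + |C'| + c) - (1 - η * D) * H x := by
        have : (1 - η * D) * ((|C| + (1 + η) * |C| + |C'| + c) / (1 - η * D)) =
            |C| + (1 + η) * |C| + |C'| + c := mul_div_cancel₀ _ hηD.ne'
        linear_combination this - R x * e5
      rw [← e7] at e4
      exact pos_of_mul_pos_right e4 hηD.le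
    linarith [hPx.2]
  · push Not at hxC
    linarith [hPx.2]

/-- the point with coordinate `x` -/
def pnt (x : K) : Fin 3 → K := ![x, 1 - x, -1]

theorem pnt_sum (x : K) : pnt x 0 + pnt x 1 + pnt x 2 = 0 := by simp [pnt]

theorem pnt_coord (x : K) : pnt x 0 / (-pnt x 2) = x := by simp [pnt]

theorem pnt_ne {x : K} (h0 : x ≠ 0) (h1 : x ≠ 1) : pnt x 0 * pnt x 1 * pnt x 2 ≠ 0 := by
  have : 1 - x ≠ 0 := sub_ne_zero.2 (Ne.symm h1)
  simp [pnt, h0, this]

/-- far from the zeros of `G` and from infinity -/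
def Far (G : K[X]) (S : Set (HeightOneSpectrum (𝓞 K))) (η : ℝ) (x : K) : Prop :=
  (∀ w : InfinitePlace K, Real.exp (-(η * H3 (pnt x))) ≤ w (G.eval x) ∧ w x ≤ Real.exp (η * H3 (pnt x))) ∧
  ∀ v ∈ S, Real.exp (-(η * H3 (pnt x))) ≤ FinitePlace.mk v (G.eval x) ∧
    FinitePlace.mk v x ≤ Real.exp (η * H3 (pnt x))

theorem prox_all (G : K[X]) (hG : G ≠ 0) (T : Finset (Pl K)) (j : ℕ) : ∃ C : ℝ, 0 ≤ C ∧ ∀ v ∈ T, ∀ x : K, C ≤ H x →
    Real.exp (-(G.natDegree * (2 ^ j * (3 * H x)) + C)) ≤ av v (G.eval (phi^[j] x)) ∧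
    av v (phi^[j] x) ≤ Real.exp (2 ^ j * (3 * H x) + C) := by
  classical
  induction T using Finset.induction_on with
  | empty => exact ⟨0, le_rfl, fun v hv => absurd hv (Finset.notMem_empty v)⟩
  | insert a T ha ih =>
    obtain ⟨C1, h1, h2⟩ := ih
    obtain ⟨C2, h3, h4⟩ := prox G hG a j
    refine ⟨C1 + C2, by positivity, fun v hv x hx => ?_⟩
    rw [Finset.mem_insert] at hv
    rcases hv with rfl | hv
    · obtain ⟨g1, g2⟩ := h4 x (by linarith)
      exact ⟨le_trans (Real.exp_le_exp.2 (by linarith)) g1, g2.trans (Real.exp_le_exp.2 (by linarith))⟩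
    · obtain ⟨g1, g2⟩ := h2 v hv x (by linarith)
      exact ⟨le_trans (Real.exp_le_exp.2 (by linarith)) g1, g2.trans (Real.exp_le_exp.2 (by linarith))⟩

/-- the exponent of the iterate -/
theorem exists_level (A : ℝ) (k : ℕ) : ∃ j : ℕ, k ≤ j ∧ A ≤ 2 ^ j := by
  obtain ⟨n, hn⟩ := pow_unbounded_of_one_lt A (by norm_num : (1 : ℝ) < 2)
  exact ⟨k + n, by omega, hn.le.trans (pow_le_pow_right₀ (by norm_num) (by omega))⟩

theorem core (G : K[X]) (hG : G ≠ 0) (S : Set (HeightOneSpectrum (𝓞 K))) (hS : S.Finite) {η : ℝ} (hη : 0 < η)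
    (k : ℕ) : ∃ (j : ℕ) (C : ℝ), k ≤ j ∧ ∀ x : K, C ≤ H x → phi^[j] x ≠ 0 ∧ phi^[j] x ≠ 1 ∧
      Far G S η (phi^[j] x) ∧ |H3 (pnt (phi^[j] x)) - (4 ^ j : ℕ) * H x| ≤ C ∧
      R (phi^[j] x) ≤ R x + ((4 ^ j : ℕ) - 1) * H x + C := by
  classical
  obtain ⟨c, hc0, hc⟩ := height_close (K := K)
  obtain ⟨j, hkj, hj⟩ := exists_level (6 * (G.natDegree + 1) / η) k
  obtain ⟨Cp, hCp0, hCp⟩ := prox_all G hG
    ((Finset.univ : Finset (InfinitePlace K)).disjSum hS.toFinset) j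
  obtain ⟨_, Cg, hCg⟩ := good_iter (K := K) j
  have hdη : 6 * (G.natDegree + 1) ≤ η * 2 ^ j := by
    rw [div_le_iff₀ hη] at hj
    linarith
  have ag := abs_nonneg Cg
  have lg := le_abs_self Cg
  have h4 : (1 : ℝ) ≤ 4 ^ j := one_le_pow₀ (by norm_num)
  have h24 : (4 : ℝ) ^ j = 2 ^ j * 2 ^ j := by rw [← mul_pow]; norm_num
  have hdeg0 : (0 : ℝ) ≤ G.natDegree := Nat.cast_nonneg _
  -- the threshold
  refine ⟨j, |Cg| + c + Cp + 1 + 2 * (η * (|Cg| + c) + Cp) / η, hkj, fun x hx => ?_⟩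
  have hX : 0 ≤ 2 * (η * (|Cg| + c) + Cp) / η := by positivity
  have hH := Height.zero_le_logHeight₁ x
  obtain ⟨g1, g2⟩ := hCg x (by linarith)
  rw [abs_le] at g1
  obtain ⟨y, hy⟩ : ∃ y, y = phi^[j] x := ⟨_, rfl⟩
  rw [← hy] at g1 g2 ⊢
  have hHy : 0 < H y := by
    push_cast at g1
    nlinarith [g1.1]
  have hy0 : y ≠ 0 := by
    rintro rfl
    rw [H, Height.logHeight₁_zero] at hHy
    exact lt_irrefl _ hHy
  have hy1 : y ≠ 1 := by
    rintro rfl
    rw [H, Height.logHeight₁_one] at hHy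
    exact lt_irrefl _ hHy
  have hcl := hc (pnt y) (pnt_sum y) (right_ne_zero_of_mul (left_ne_zero_of_mul (pnt_ne hy0 hy1)))
    (right_ne_zero_of_mul (pnt_ne hy0 hy1))
  rw [pnt_coord, abs_le] at hcl
  push_cast at g1 g2 ⊢
  have hH3 : 4 ^ j * H x - |Cg| - c ≤ H3 (pnt y) := by linarith [g1.1, hcl.1]
  have hbig : η * (|Cg| + c) + Cp ≤ η * 2 ^ j * 2 ^ j * H x / 2 := by
    have h5 : 2 * (η * (|Cg| + c) + Cp) / η ≤ H x := by linarith
    rw [div_le_iff₀ hη] at h5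
    have h6 : η * H x ≤ η * 2 ^ j * 2 ^ j * H x := by
      have : η * 2 ^ j * 2 ^ j * H x = 4 ^ j * (η * H x) := by rw [h24]; ring
      rw [this]
      exact le_mul_of_one_le_left (by positivity) h4
    linarith
  have hkey : (G.natDegree + 1) * (2 ^ j * (3 * H x)) + Cp ≤ η * H3 (pnt y) := by
    have h7 : η * (4 ^ j * H x - |Cg| - c) ≤ η * H3 (pnt y) := mul_le_mul_of_nonneg_left hH3 hη.le
    have h8 : (G.natDegree + 1) * (2 ^ j * (3 * H x)) ≤ η * 2 ^ j * 2 ^ j * H x / 2 := by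
      have h9 : 6 * (G.natDegree + 1) * (2 ^ j * H x) ≤ η * 2 ^ j * (2 ^ j * H x) :=
        mul_le_mul_of_nonneg_right hdη (by positivity)
      nlinarith
    rw [h24] at h7
    nlinarith
  have h2jH : (0 : ℝ) ≤ 2 ^ j * (3 * H x) := by positivity
  have hlow : (G.natDegree : ℝ) * (2 ^ j * (3 * H x)) + Cp ≤ η * H3 (pnt y) := by nlinarith
  have hup : 2 ^ j * (3 * H x) + Cp ≤ η * H3 (pnt y) := by nlinarith
  refine ⟨hy0, hy1, ⟨fun w => ?_, fun v hv => ?_⟩, ?_, ?_⟩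
  · obtain ⟨k1, k2⟩ := hCp (Sum.inl w) (Finset.inl_mem_disjSum.2 (Finset.mem_univ _)) x (by linarith)
    rw [← hy] at k1 k2
    exact ⟨le_trans (Real.exp_le_exp.2 (by linarith)) k1, k2.trans (Real.exp_le_exp.2 hup)⟩
  · obtain ⟨k1, k2⟩ := hCp (Sum.inr v) (Finset.inr_mem_disjSum.2 (hS.mem_toFinset.2 hv)) x (by linarith)
    rw [← hy] at k1 k2
    exact ⟨le_trans (Real.exp_le_exp.2 (by linarith)) k1, k2.trans (Real.exp_le_exp.2 hup)⟩
  · rw [abs_le]
    constructor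
    · linarith [g1.1, hcl.1]
    · linarith [g1.2, hcl.2]
  · linarith

/-- the points -/
def AwayU (G : K[X]) (S : Set (HeightOneSpectrum (𝓞 K))) (η : ℝ) (k : ℕ) : Set (Fin 3 → K) :=
  {P | ∃ y : K, P = pnt (phi^[k] y) ∧ Far G S η (phi^[k] y)}

theorem away (G : K[X]) (hG : G ≠ 0) (S : Set (HeightOneSpectrum (𝓞 K))) (hS : S.Finite) {η : ℝ} (hη : 0 < η)
    (k : ℕ) (h : AbcU (AwayU G S η k)) : ∀ ε : ℝ, 0 < ε → ∃ C : ℝ, ∀ P : Fin 3 → K,
      P 0 + P 1 + P 2 = 0 → P 0 * P 1 * P 2 ≠ 0 → H3 P < (1 + ε) * R3' P + C := by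
  obtain ⟨j, C, hkj, hC⟩ := core G hG S hS hη k
  refine transfer (AwayU G S η k) (4 ^ j) C (fun x hx => ?_) h
  obtain ⟨h0, h1, h2, h3, h4⟩ := hC x hx
  refine ⟨pnt (phi^[j] x), 4 ^ j, ⟨phi^[j - k] x, ?_, ?_⟩, pnt_sum _, pnt_ne h0 h1, Nat.one_le_pow _ _ (by norm_num),
    le_rfl, h3, ?_⟩
  · rw [← Function.iterate_add_apply, Nat.add_sub_cancel' hkj]
  · rw [← Function.iterate_add_apply, Nat.add_sub_cancel' hkj]
    exact h2
  · have hrad : R3' (pnt (phi^[j] x)) = R (phi^[j] x) := by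
      have := rad_eq (pnt_sum (phi^[j] x)) (right_ne_zero_of_mul (pnt_ne h0 h1))
      rw [pnt_coord] at this
      exact this
    rw [hrad]
    exact h4

/-- the number of points in the image of the iterate -/
theorem count (k : ℕ) {η : ℝ} (hη : 0 < η) : ∃ C : ℝ, ∀ T : ℝ, 1 ≤ T →
    {P : Fin 3 → K | (∃ y, P = pnt (phi^[k] y)) ∧ P 0 * P 1 * P 2 ≠ 0 ∧
      H3 P / (Module.finrank ℚ K : ℝ) ≤ Real.log T}.Finite ∧
    ({P : Fin 3 → K | (∃ y, P = pnt (phi^[k] y)) ∧ P 0 * P 1 * P 2 ≠ 0 ∧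
      H3 P / (Module.finrank ℚ K : ℝ) ≤ Real.log T}.ncard : ℝ) ≤
      C * T ^ (2 * (Module.finrank ℚ K : ℝ) / 4 ^ k + η) := by
  classical
  have hd : 0 < (Module.finrank ℚ K : ℝ) := by exact_mod_cast Module.finrank_pos
  set d : ℝ := (Module.finrank ℚ K : ℝ) with hdd
  have h4 : (1 : ℝ) ≤ 4 ^ k := one_le_pow₀ (by norm_num)
  have h40 : (0 : ℝ) < 4 ^ k := by linarith
  obtain ⟨c, hc0, hc⟩ := height_close (K := K)
  obtain ⟨_, C1, h1⟩ := good_iter (K := K) k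
  obtain ⟨C2, hC2, h2⟩ := count_all (K := K) (η := 4 ^ k * η) (by positivity)
  obtain ⟨E, hE⟩ : ∃ E : ℝ, E = Real.exp ((c + 4 ^ k * |C1|) / (4 ^ k * d)) := ⟨_, rfl⟩
  have hE1 : 1 ≤ E := by rw [hE]; exact Real.one_le_exp (by positivity)
  refine ⟨C2 * E ^ (d * 2 + 4 ^ k * η), fun T hT => ?_⟩
  have hT0 : 0 < T := by linarith
  have hTn : 1 ≤ T ^ (1 / (4 ^ k : ℝ)) := Real.one_le_rpow hT (by positivity)
  have hTE : 1 ≤ T ^ (1 / (4 ^ k : ℝ)) * E := by nlinarith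
  obtain ⟨g1, g2⟩ := h2 _ hTE
  have hsub : {P : Fin 3 → K | (∃ y, P = pnt (phi^[k] y)) ∧ P 0 * P 1 * P 2 ≠ 0 ∧ H3 P / d ≤ Real.log T} ⊆
      (fun y => pnt (phi^[k] y)) '' {x : K | H x ≤ d * Real.log (T ^ (1 / (4 ^ k : ℝ)) * E)} := by
    rintro P ⟨⟨x, rfl⟩, hne, hH⟩
    refine ⟨x, ?_, rfl⟩
    rw [Set.mem_ofPred_eq]
    have p1 := right_ne_zero_of_mul (left_ne_zero_of_mul hne)
    have p2 := right_ne_zero_of_mul hne
    have e1 := hc _ (pnt_sum _) p1 p2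
    rw [pnt_coord, abs_le] at e1
    rw [div_le_iff₀ hd] at hH
    have a1 := abs_nonneg C1
    have l1 := le_abs_self C1
    have hlogT : 0 ≤ Real.log T := Real.log_nonneg hT
    have e3 : 4 ^ k * H x ≤ d * Real.log T + c + 4 ^ k * |C1| := by
      by_cases hx : |C1| ≤ H x
      · obtain ⟨e2, -⟩ := h1 x (by linarith)
        rw [abs_le] at e2
        push_cast at e2
        nlinarith [e1.1, e2.1]
      · push Not at hx
        have := mul_le_mul_of_nonneg_left hx.le h40.le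
        nlinarith
    rw [Real.log_mul (by linarith) (by linarith), hE, Real.log_exp, Real.log_rpow hT0]
    have e4 : d * (1 / (4 ^ k : ℝ) * Real.log T + (c + 4 ^ k * |C1|) / (4 ^ k * d)) =
        (d * Real.log T + c + 4 ^ k * |C1|) / 4 ^ k := by
      field_simp
      ring
    rw [e4, le_div_iff₀ h40]
    linarith
  have hfin := g1.image (fun y => pnt (phi^[k] y))
  refine ⟨hfin.subset hsub, ?_⟩
  have hcard := (Set.ncard_le_ncard hsub hfin).trans (Set.ncard_image_le g1)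
  have hcard' : ({P : Fin 3 → K | (∃ y, P = pnt (phi^[k] y)) ∧ P 0 * P 1 * P 2 ≠ 0 ∧
      H3 P / d ≤ Real.log T}.ncard : ℝ) ≤
      ({x : K | H x ≤ d * Real.log (T ^ (1 / (4 ^ k : ℝ)) * E)}.ncard : ℝ) := by exact_mod_cast hcard
  refine hcard'.trans (g2.trans (le_of_eq ?_))
  rw [Real.mul_rpow (by linarith) (by linarith), ← Real.rpow_mul hT0.le]
  have e5 : 1 / (4 ^ k : ℝ) * (d * 2 + 4 ^ k * η) = 2 * d / 4 ^ k + η := by
    field_simp
  rw [e5]
  ring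

end Pool.Agent.U221.AW
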