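import Pool.Agent.U221.AW.Fld
import Pool.Agent.U221.TK.Final
import Pool.Agent.R405.PP3

/-!
# The iterated images of all numbers are far from given algebraic numbers, by Roth's theorem
-/

set_option autoImplicit false
set_option linter.unusedSectionVars false

namespace Pool.Agent.U221.AW

open Polynomial NumberField IsDedekindDomain Pool.Agent.U221.TK
open Pool.Agent.W180.OP (Pl av wt nrm)
open Pool.Agent.R405 (Good exists_good)

variable {K : Type} [Field K] [NumberField K]

theorem belyi_phi : Belyi ((1 - X ^ 2) ^ 2 : K[X]) ((1 + X ^ 2) ^ 2) 4 where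
  pos := by norm_num
  cop := by
    refine IsCoprime.pow ⟨C (1 / 2), C (1 / 2), ?_⟩
    have e3 : (2 : K[X]) * C (1 / 2) = 1 := by
      have : (2 : K[X]) = C 2 := (map_ofNat C 2).symm
      rw [this, ← C_mul]
      norm_num
    linear_combination e3
  degA := by compute_degree
  degB := by compute_degree
  max := Or.inr (by compute_degree!)
  zeros := by
    refine ⟨(X + 1) * (X ^ 2 + 1), 2, ?_, ?_, -C (1 / 4), ?_⟩
    · intro h
      have := congrArg (Polynomial.eval 0) h
      simp at this
    · have : ((X + 1) * (X ^ 2 + 1) : K[X]).natDegree ≤ 3 := by compute_degree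
      omega
    · have e3 : (4 : K[X]) * C (1 / 4) = 1 := by
        have : (4 : K[X]) = C 4 := (map_ofNat C 4).symm
        rw [this, ← C_mul]
        norm_num
      linear_combination (-(X ^ 2 * (X - 1) ^ 2 * (X + 1) ^ 2 * (X ^ 2 + 1) ^ 2) : K[X]) * e3

theorem good_phi : TK.Good (phi : K → K) 4 := by
  have h := good_of_belyi (K := K) belyi_phi
  have e : (fun x : K => eval x ((1 - X ^ 2) ^ 2 : K[X]) / eval x ((1 + X ^ 2) ^ 2)) = phi := by
    funext x
    simp [phi, div_pow]
  rw [← e]
  exact h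

theorem good_iter (j : ℕ) : TK.Good (phi^[j] : K → K) (4 ^ j) := by
  induction j with
  | zero =>
    have e : (phi^[0] : K → K) = fun x => x := rfl
    rw [e, pow_zero]
    exact good_id (K := K)
  | succ j ih =>
    have h := good_comp ih (good_phi (K := K))
    rw [pow_succ']
    have e : (fun x : K => phi (phi^[j] x)) = phi^[j + 1] := by
      funext x
      rw [Function.iterate_succ_apply']
    rw [← e]
    exact h

theorem H_of_sq {y : K} (h : 1 + y ^ 2 = 0) : H y = 0 := by
  have h1 : y ^ 2 = -1 := by linear_combination h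
  have h2 : H (y ^ 4) = 4 * H y := by
    have := Height.logHeight₁_pow y 4
    simpa using this
  have h3 : y ^ 4 = 1 := by
    have : y ^ 4 = (y ^ 2) ^ 2 := by ring
    rw [this, h1]; ring
  rw [h3, H, Height.logHeight₁_one] at h2
  linarith

theorem map_phi {L : Type} [Field L] [Algebra K L] (x : K) : algebraMap K L (phi x) = phi (algebraMap K L x) := by
  simp [phi]

theorem map_iter {L : Type} [Field L] [Algebra K L] (j : ℕ) (x : K) :
    algebraMap K L (phi^[j] x) = phi^[j] (algebraMap K L x) := by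
  induction j with
  | zero => rfl
  | succ j ih => rw [Function.iterate_succ_apply', Function.iterate_succ_apply', map_phi, ih]

/-- the iterated images are not `± i` -/
theorem iter_ok (j : ℕ) : ∃ C : ℝ, 0 ≤ C ∧ ∀ x : K, C ≤ H x → ∀ i < j, 1 + (phi^[i] x) ^ 2 ≠ 0 := by
  induction j with
  | zero => exact ⟨0, le_rfl, fun x _ i hi => absurd hi (by omega)⟩
  | succ j ih =>
    obtain ⟨C1, h0, h1⟩ := ih
    obtain ⟨_, C2, h2⟩ := good_iter (K := K) j
    refine ⟨C1 + |C2| + 1, by positivity, fun x hx i hi h => ?_⟩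
    have a2 := abs_nonneg C2
    have l2 := le_abs_self C2
    rcases Nat.lt_succ_iff_lt_or_eq.1 hi with hi' | rfl
    · exact h1 x (by linarith) i hi' h
    · obtain ⟨g1, -⟩ := h2 x (by linarith)
      rw [H_of_sq h, abs_le] at g1
      have h4 : (1 : ℝ) ≤ 4 ^ i := one_le_pow₀ (by norm_num)
      have hH := Height.zero_le_logHeight₁ x
      push_cast at g1
      nlinarith [g1.2]

section roth
variable {L : Type} [Field L] [NumberField L] [Algebra K L] [IsGalois ℚ L]

theorem one_le_wt (v : Pl K) : 1 ≤ wt v := by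
  rcases v with w | p
  · show (1 : ℝ) ≤ (w.mult : ℝ)
    exact_mod_cast Nat.one_le_iff_ne_zero.2 w.mult_ne_zero
  · exact le_rfl

theorem nrm_two (f : AbsoluteValue K ℝ) (x : K) : nrm f ![x, 1] = max 1 (f x) := by
  unfold nrm
  apply le_antisymm
  · refine ciSup_le fun i => ?_
    fin_cases i
    · exact le_max_right _ _
    · simp
  · refine max_le ?_ ?_
    · have := Pool.Agent.W180.OP.le_nrm f ![x, 1] 1
      simpa [nrm] using this
    · have := Pool.Agent.W180.OP.le_nrm f ![x, 1] 0
      simpa [nrm] using this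

theorem one_form (hi : ∃ z : L, z ^ 2 = -1) (v : Pl K) (f : AbsoluteValue L ℝ) (hf : Good v f) (t : L × L)
    (ht : t ≠ 0) : ∃ C : ℝ, 0 ≤ C ∧ ∀ x : K, C ≤ H x →
      Real.exp (-(3 * H x + C)) ≤ ell f t (algebraMap K L x) := by
  obtain ⟨C1, hC1, h1⟩ := Pool.Agent.R405.PP.roth2 hi v f hf ![t.1, t.2] (by
    intro h
    apply ht
    have e0 := congrFun h 0
    have e1 := congrFun h 1
    simp at e0 e1
    exact Prod.ext e0 e1) 1 one_pos
  have hB : ∃ B : ℝ, 0 ≤ B ∧ ∀ x : K, t.1 * algebraMap K L x + t.2 = 0 → H x ≤ B := by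
    by_cases h : ∃ x0 : K, t.1 * algebraMap K L x0 + t.2 = 0
    · obtain ⟨x0, hx0⟩ := h
      refine ⟨H x0, Height.zero_le_logHeight₁ _, fun x hx => ?_⟩
      have h2 : t.1 * (algebraMap K L x - algebraMap K L x0) = 0 := by linear_combination hx - hx0
      rcases mul_eq_zero.1 h2 with h3 | h3
      · exfalso
        apply ht
        rw [h3, zero_mul, zero_add] at hx
        exact Prod.ext h3 hx
      · rw [sub_eq_zero] at h3
        rw [(algebraMap K L).injective h3]
    · push Not at h
      exact ⟨0, le_rfl, fun x hx => absurd hx (h x)⟩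
  obtain ⟨B, hB0, hB⟩ := hB
  refine ⟨C1 + B + 1, by positivity, fun x hx => ?_⟩
  have hH := Height.zero_le_logHeight₁ x
  have hne : t.1 * algebraMap K L x + t.2 ≠ 0 := by
    intro h
    have := hB x h
    linarith
  have h2 := h1 ![x, 1] (by
    intro h
    have := congrFun h 1
    simp at this) (by
    rw [Fin.sum_univ_two]
    simpa using hne)
  rw [nrm_two, Fin.sum_univ_two] at h2
  simp only [Matrix.cons_val_zero, Matrix.cons_val_one, Matrix.cons_val_fin_one, map_one, mul_one] at h2
  rw [← Height.logHeight₁_eq_logHeight] at h2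
  have hpos : 0 < f (t.1 * algebraMap K L x + t.2) := f.pos hne
  have hm : 0 < max 1 (f (algebraMap K L x)) := lt_max_of_lt_left one_pos
  have hell : 0 < ell f t (algebraMap K L x) := div_pos hpos hm
  rw [← hf.ext] at h2
  have h3 : Real.log (max 1 (f (algebraMap K L x))) - Real.log (f (t.1 * algebraMap K L x + t.2)) =
      -Real.log (ell f t (algebraMap K L x)) := by
    rw [ell, Real.log_div hpos.ne' hm.ne']
    ring
  rw [h3] at h2
  rw [← Real.le_log_iff_exp_le hell]
  by_contra hcon
  push Not at hcon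
  have h4 : 3 * H x + (C1 + B + 1) < -Real.log (ell f t (algebraMap K L x)) := by linarith
  have h5 : (0 : ℝ) ≤ -Real.log (ell f t (algebraMap K L x)) := by
    have : 0 ≤ 3 * H x + (C1 + B + 1) := by positivity
    linarith
  have h6 := mul_le_mul_of_nonneg_right (one_le_wt v) h5
  have h7 : (2 + 1) * Height.logHeight₁ x = 3 * H x := by norm_num
  rw [h7] at h2
  linarith

theorem form_iter (hi : ∃ z : L, z ^ 2 = -1) (v : Pl K) (f : AbsoluteValue L ℝ) (hf : Good v f) (j : ℕ)
    (u : L × L) (hu : u ≠ 0) (hs : Sp j u) : ∃ C : ℝ, 0 ≤ C ∧ ∀ x : K, C ≤ H x →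
      Real.exp (-(2 ^ j * (3 * H x) + C)) ≤ ell f u (algebraMap K L (phi^[j] x)) := by
  classical
  obtain ⟨T, c, hT, hc, hch⟩ := chain f j u hu hs
  obtain ⟨C0, hC0, h0⟩ := iter_ok (K := K) j
  have hall : ∃ C : ℝ, 0 ≤ C ∧ ∀ t ∈ T, ∀ x : K, C ≤ H x →
      Real.exp (-(3 * H x + C)) ≤ ell f t (algebraMap K L x) := by
    clear hch
    induction T using Finset.induction_on with
    | empty => exact ⟨0, le_rfl, fun t ht => absurd ht (Finset.notMem_empty t)⟩
    | insert a T ha ih =>
      obtain ⟨C1, h1, h2⟩ := ih fun t ht => hT t (Finset.mem_insert_of_mem ht)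
      obtain ⟨C2, h3, h4⟩ := one_form hi v f hf a (hT a (Finset.mem_insert_self _ _))
      refine ⟨C1 + C2, by positivity, fun t ht x hx => ?_⟩
      rw [Finset.mem_insert] at ht
      rcases ht with rfl | ht
      · refine le_trans (Real.exp_le_exp.2 ?_) (h4 x (by linarith))
        linarith
      · refine le_trans (Real.exp_le_exp.2 ?_) (h2 t ht x (by linarith))
        linarith
  obtain ⟨C1, hC1, h1⟩ := hall
  refine ⟨C0 + C1 + 2 ^ j * C1 + |Real.log c|, by positivity, fun x hx => ?_⟩
  have ac := abs_nonneg (Real.log c)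
  have hp : (0 : ℝ) ≤ 2 ^ j * C1 := by positivity
  obtain ⟨t, ht, h2⟩ := hch (algebraMap K L x) (fun i hi' h => h0 x (by linarith) i hi' (by
    apply (algebraMap K L).injective
    rw [map_add, map_pow, map_one, map_zero, map_iter]
    exact h))
  rw [map_iter]
  refine le_trans ?_ h2
  have h3 := h1 t ht x (by linarith)
  have h4 : Real.exp (-(3 * H x + C1)) ^ 2 ^ j ≤ ell f t (algebraMap K L x) ^ 2 ^ j :=
    pow_le_pow_left₀ (Real.exp_nonneg _) h3 _
  refine le_trans ?_ (mul_le_mul_of_nonneg_left h4 hc.le)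
  rw [← Real.exp_nat_mul]
  have hce : c = Real.exp (Real.log c) := (Real.exp_log hc).symm
  have h5 : c * Real.exp (((2 ^ j : ℕ) : ℝ) * -(3 * H x + C1)) =
      Real.exp (Real.log c + ((2 ^ j : ℕ) : ℝ) * -(3 * H x + C1)) := by
    rw [Real.exp_add, ← hce]
  rw [h5]
  apply Real.exp_le_exp.2
  have := neg_abs_le (Real.log c)
  push_cast
  nlinarith

end roth

theorem prod_bound {L : Type} [Field L] (f : AbsoluteValue L ℝ) (y : L) (b : ℝ) (hb : 0 ≤ b) (s : Multiset L) :
    (∀ z ∈ s, b ≤ f (y - z)) → b ^ s.card ≤ f ((s.map fun z => y - z).prod) := by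
  induction s using Multiset.induction_on with
  | empty => intro _; simp
  | cons a s ih =>
    intro h
    rw [Multiset.map_cons, Multiset.prod_cons, map_mul, Multiset.card_cons, pow_succ']
    exact mul_le_mul (h a (Multiset.mem_cons_self _ _)) (ih fun z hz => h z (Multiset.mem_cons_of_mem hz))
      (pow_nonneg hb _) (f.nonneg _)

/-- **the iterated images are far from the zeros of a polynomial and from infinity** -/
theorem prox (G : K[X]) (hG : G ≠ 0) (v : Pl K) (j : ℕ) : ∃ C : ℝ, 0 ≤ C ∧ ∀ x : K, C ≤ H x →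
    Real.exp (-(G.natDegree * (2 ^ j * (3 * H x)) + C)) ≤ av v (G.eval (phi^[j] x)) ∧
    av v (phi^[j] x) ≤ Real.exp (2 ^ j * (3 * H x) + C) := by
  classical
  obtain ⟨GM, hGM⟩ : ∃ GM, GM = G.map (algebraMap K (AlgebraicClosure K)) := ⟨_, rfl⟩
  have hsp : GM.Splits := IsAlgClosed.splits _
  -- the numbers which are used
  choose E hE using fun u : AlgebraicClosure K × AlgebraicClosure K => sp_finite j u (sp_closed j u)
  obtain ⟨L, hL1, hL2, hL3, hL4, ι, hi, hι, hιK⟩ := exists_field (K := K)
    (GM.roots.toFinset ∪ E (0, 1) ∪ GM.roots.toFinset.biUnion fun z => E (1, -z))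
  have hroot : ∀ z ∈ GM.roots, ∃ y : L, ι y = z := fun z hz => hι z (by
    rw [Finset.mem_union, Finset.mem_union]
    exact Or.inl (Or.inl (Multiset.mem_toFinset.2 hz)))
  have h01 : Sp j ((0 : L), (1 : L)) := hE (0, 1) L ι (fun e he => hι e (by
    rw [Finset.mem_union, Finset.mem_union]
    exact Or.inl (Or.inr he))) (0, 1) (by simp)
  have hz : ∀ y : L, ι y ∈ GM.roots → Sp j ((1 : L), -y) := fun y hy => hE (1, -ι y) L ι (fun e he => hι e (by
    rw [Finset.mem_union, Finset.mem_biUnion]
    exact Or.inr ⟨ι y, Multiset.mem_toFinset.2 hy, he⟩)) (1, -y) (by simp)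
  obtain ⟨f, hf⟩ := exists_good (k := K) (K := L) v
  obtain ⟨C0, hC0, h0⟩ := form_iter hi v f hf j (0, 1) (by
    intro h
    exact one_ne_zero (congrArg Prod.snd h)) h01
  -- the roots in L
  choose! l hl using hroot
  obtain ⟨R', hR'⟩ : ∃ R' : Multiset L, R' = GM.roots.map l := ⟨_, rfl⟩
  have hR'mem : ∀ y ∈ R', ι y ∈ GM.roots := by
    intro y hy
    rw [hR', Multiset.mem_map] at hy
    obtain ⟨z, hz1, rfl⟩ := hy
    rw [hl z hz1]
    exact hz1
  have hcard : R'.card = G.natDegree := by
    rw [hR', Multiset.card_map]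
    have h1 := hsp.natDegree_eq_card_roots
    rw [← h1, hGM, natDegree_map]
  obtain ⟨a, ha⟩ : ∃ a : L, a = algebraMap K L G.leadingCoeff := ⟨_, rfl⟩
  have ha0 : a ≠ 0 := by
    rw [ha]
    exact (_root_.map_ne_zero _).2 (leadingCoeff_ne_zero.2 hG)
  have hfac : G.map (algebraMap K L) = C a * (R'.map fun z => X - C z).prod := by
    apply Polynomial.map_injective ι ι.injective
    rw [Polynomial.map_map]
    have e1 : ι.comp (algebraMap K L) = algebraMap K (AlgebraicClosure K) := by
      ext x
      exact hιK x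
    rw [e1, ← hGM, Polynomial.map_mul, Polynomial.map_multiset_prod, Multiset.map_map, map_C]
    have h1 := hsp.eq_prod_roots
    have h2 : (R'.map fun z => Polynomial.map ι (X - C z)).prod = (GM.roots.map fun z => X - C z).prod := by
      congr 1
      rw [hR', Multiset.map_map]
      refine Multiset.map_congr rfl fun z hz1 => ?_
      simp only [Function.comp_apply, Polynomial.map_sub, map_X, map_C, hl z hz1]
    have h3 : ι a = GM.leadingCoeff := by rw [ha, hιK, hGM, leadingCoeff_map]
    rw [h3]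
    exact h1.trans (by rw [← h2]; rfl)
  have heval : ∀ y : K, algebraMap K L (G.eval y) = a * (R'.map fun z => algebraMap K L y - z).prod := by
    intro y
    have h1 := congrArg (Polynomial.eval (algebraMap K L y)) hfac
    rw [eval_map, eval₂_at_apply, eval_mul, eval_C, eval_multiset_prod, Multiset.map_map] at h1
    rw [h1]
    congr 1
    congr 1
    refine Multiset.map_congr rfl fun z _ => ?_
    simp
  have hall : ∃ C : ℝ, 0 ≤ C ∧ ∀ z ∈ R', ∀ x : K, C ≤ H x →
      Real.exp (-(2 ^ j * (3 * H x) + C)) ≤ ell f (1, -z) (algebraMap K L (phi^[j] x)) := by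
    have : ∀ s : Multiset L, (∀ y ∈ s, ι y ∈ GM.roots) → ∃ C : ℝ, 0 ≤ C ∧ ∀ z ∈ s, ∀ x : K, C ≤ H x →
        Real.exp (-(2 ^ j * (3 * H x) + C)) ≤ ell f (1, -z) (algebraMap K L (phi^[j] x)) := by
      intro s
      induction s using Multiset.induction_on with
      | empty => exact fun _ => ⟨0, le_rfl, fun z hz => absurd hz (Multiset.notMem_zero z)⟩
      | cons b s ih =>
        intro hs
        obtain ⟨C1, h1, h2⟩ := ih fun y hy => hs y (Multiset.mem_cons_of_mem hy)
        obtain ⟨C2, h3, h4⟩ := form_iter hi v f hf j (1, -b) (by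
          intro h
          exact one_ne_zero (congrArg Prod.fst h)) (hz b (hs b (Multiset.mem_cons_self _ _)))
        refine ⟨C1 + C2, by positivity, fun t ht x hx => ?_⟩
        rw [Multiset.mem_cons] at ht
        rcases ht with rfl | ht
        · refine le_trans (Real.exp_le_exp.2 ?_) (h4 x (by linarith))
          linarith
        · refine le_trans (Real.exp_le_exp.2 ?_) (h2 t ht x (by linarith))
          linarith
    exact this R' hR'mem
  obtain ⟨C1, hC1, h1⟩ := hall
  refine ⟨C0 + C1 + G.natDegree * C1 + |Real.log (f a)|, by positivity, fun x hx => ⟨?_, ?_⟩⟩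
  · have aa := abs_nonneg (Real.log (f a))
    have hd0 : (0 : ℝ) ≤ G.natDegree * C1 := by positivity
    rw [← hf.ext, heval, map_mul]
    obtain ⟨b, hb⟩ : ∃ b, b = Real.exp (-(2 ^ j * (3 * H x) + C1)) := ⟨_, rfl⟩
    have hb0 : 0 ≤ b := by rw [hb]; exact Real.exp_nonneg _
    have h2 := prod_bound f (algebraMap K L (phi^[j] x)) b hb0 R' (fun z hz1 => by
      have h3 := h1 z hz1 x (by linarith)
      rw [hb]
      refine h3.trans ?_
      unfold ell
      rw [one_mul, ← sub_eq_add_neg]
      exact div_le_self (f.nonneg _) (le_max_left _ _))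
    rw [hcard] at h2
    refine le_trans ?_ (mul_le_mul_of_nonneg_left h2 (f.nonneg _))
    rw [hb, ← Real.exp_nat_mul]
    have h5 : f a * Real.exp ((G.natDegree : ℝ) * -(2 ^ j * (3 * H x) + C1)) =
        Real.exp (Real.log (f a) + (G.natDegree : ℝ) * -(2 ^ j * (3 * H x) + C1)) := by
      rw [Real.exp_add, Real.exp_log (f.pos ha0)]
    rw [h5]
    apply Real.exp_le_exp.2
    have := neg_abs_le (Real.log (f a))
    nlinarith
  · have aa := abs_nonneg (Real.log (f a))
    have hd0 : (0 : ℝ) ≤ G.natDegree * C1 := by positivity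
    have h2 := h0 x (by linarith)
    rw [← hf.ext]
    have hm : 0 < max 1 (f (algebraMap K L (phi^[j] x))) := lt_max_of_lt_left one_pos
    have e : ell f ((0 : L), (1 : L)) (algebraMap K L (phi^[j] x)) =
        (max 1 (f (algebraMap K L (phi^[j] x))))⁻¹ := by
      simp [ell]
    rw [e, Real.exp_neg, inv_le_inv₀ (Real.exp_pos _) hm] at h2
    refine (le_max_right _ _).trans (h2.trans (Real.exp_le_exp.2 ?_))
    linarith

end Pool.Agent.U221.AW
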